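import Pool.Agent.H34.FA.Main

/-!
# Minimal models of varieties with a Galois cover of small degree and of maximal Albanese dimension

Let `X` be a projective variety of dimension `n`, `Z → X` a Galois cover with the group `G`, with any
ramification, and suppose that `Z` has maximal Albanese dimension (`n` holomorphic 1-forms on a
resolution of `Z` are independent at a general point). Any projective variety `X` has such covers, and
`X` itself can have no holomorphic forms of degree one. For `g` in `G` let `alb g` be the Albanese
dimension of `Z / g`, the rank of the `g`-invariant 1-forms.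

**The theorem for a point as base.** If `n - alb g ≥ ord g + 1` for all `g ≠ 1` in `G`, then
`κ (X) = κ (Z) ≥ 0` and `ν (X) ≤ ν (Z)`. Here `κ (Z) = ν (Z)` by a published theorem (varieties of
maximal Albanese dimension), so that `κ (X) = ν (X)`; by published theorems (Lai, Gongyo-Lehmann) `X`
is then birational to a projective variety with terminal singularities and nef canonical divisor.

**Example: covers of degree 2 and 3.** Let `G` have the order `p = 2` or `p = 3`, and let `F` be a
general fibre of the Albanese map of `X`; its dimension is `n - alb g`. If `dim F ≥ p + 1`, this is the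
theorem. If `dim F ≤ p ≤ 3`, then the minimal model conjecture holds for `F`, and then it holds for
`X` (if `F` is uniruled, then `X` is; if not, then `F` has a good minimal model, and `X` has one by a
theorem of Lai). So, with the published theorems, the minimal model conjecture holds for all projective
varieties `X` which have a Galois cover of degree 2 or 3 of maximal Albanese dimension.
(The published theorems are not formalized and not used below.)

**The theorem.** More generally, let `Z → B` be a dominant rational map of projective varieties,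
`dim B = d`, `dim Z = d + (f + 1)`, with the function fields `M ⊂ L` (`B` may be a point), `Δ_B` a
divisor on `B` with multiplicities `δB u ≤ 1`, `V` a space of regular 1-forms on `Z`, `f + 1` of which
are independent on the general fibre (for example, `Z` is generically finite over its image in
`B × A`, where `A` is an abelian variety), and `G` a finite group of birational automorphisms of `Z`
which preserves `V`; it need not preserve the map to `B`. `X` is a projective variety birational to
`Z / G`; its function field is `fixedField G`. `Drop G M V f t`: for each `g ≠ 1` in `G` there is a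
number `l` such that

* all eigenvalues of `g` on `V` are roots of unity of order at most `l` (for example `l = ord g`, or
  the maximum of the lengths of the cycles, if `G` permutes the elements of a basis of `V`);
* among any `f` elements of `V` which are independent on the general fibre at most `f - l - t` are
  invariant under `g`.

`BaseBound ... δB` (a hypothesis of both parts): if the prime divisor `w` over `Z` is not ramified over
`X` and lies over the prime divisor `u` over `B` with multiplicity `c`, then `1 ≤ c (1 - δB u)`, that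
is, `δB u ≤ 1 - 1 / c`; there is no condition if `B` is a point.

The pluricanonical forms and the sections of `m K + A` are functions of rational vector fields, with
conditions at all prime divisors over the variety (divisorial places of the function field), so that
they are the sections on every smooth projective model. `IsRegForm`, `IsClosedForm`, `IsImage`,
`constFields` are defined in `Y173/QA`, `IndepOver` in `Y173/QM`, `fibreForms` in `V11168/Rel`,
`BaseBound` in `V11168/Pair`, `KodTr`, `NumLe` in `W619`, `PairKod` and `IsRegularOnModel` in `Y173`,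
`Y174`.
-/

set_option autoImplicit false

open FF IntermediateField Pool.Agent.W619.PQ Pool.Agent.W619.TW Pool.Agent.W619.Y
  Pool.Agent.Y173.QA Pool.Agent.Y173.QM Pool.Agent.Y174 Pool.Agent.V11168.Rel
  Pool.Agent.V11168.Pair

namespace Pool.Agent.Results.MP_fa3f7f_ag.CoversOfMaximalAlbaneseDimension

/-- The Kodaira dimension of the projective varieties of dimension `n` over `k` with the function
field `K` is `a` (and not `-∞`): for some `m ≥ 1` there are `h + 1` regular `m`-fold pluricanonical
forms whose `h` ratios are algebraically independent (`KodTr`) exactly for `h ≤ a`. -/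
def HasKodairaDim (k K : Type) [Field k] [Field K] [Algebra k K] (n a : ℕ) : Prop :=
  ∀ h, KodTr k K n h ↔ h ≤ a

/-- The numerical dimension of the canonical bundle of the projective varieties of dimension `n` over
`k` with the function field `K` is `a`: for every divisor `A` there is `C` with
`h⁰ (m K + A) ≤ C m ^ h` for all `m ≥ 1` (`NumLe`), exactly for `h ≥ a`. -/
def HasNumericalDim (k K : Type) [Field k] [Field K] [Algebra k K] (n a : ℕ) : Prop :=
  ∀ h, NumLe k K n (fun _ => False) h ↔ a ≤ h

open scoped Classical in
/-- The number of `g`-invariant forms drops: for each `g ≠ 1` in `G` there is `l` such that the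
eigenvalues of `g` on `V` are roots of unity of order at most `l`, and among any `f` elements of `V`
which are independent relative to `M` at most `f - l - t` are invariant under `g`. -/
def Drop {L : Type} [Field L] [Algebra ℂ L] (G : Subgroup (L ≃ₐ[ℂ] L)) (M : IntermediateField ℂ L)
    (d : ℕ) (V : Submodule ℂ (Derivation ℂ L L →ₗ[L] L)) (f t : ℕ) : Prop :=
  ∀ g ∈ G, g ≠ 1 → ∃ l : ℕ,
    (∀ η ∈ V, η ≠ 0 → ∀ c : ℂ, IsImage g η (c • η) → ∃ j, 1 ≤ j ∧ j ≤ l ∧ c ^ j = 1) ∧
    ∀ η : Fin f → Derivation ℂ L L →ₗ[L] L, (∀ i, η i ∈ V) → IndepOver (m := d) M η →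
      (Finset.univ.filter fun i => IsImage g (η i) (η i)).card + l + t ≤ f

open scoped Classical in
/-- the estimate -/
theorem sum_drop {L : Type} [Field L] [Algebra ℂ L] {G : Subgroup (L ≃ₐ[ℂ] L)}
    {M : IntermediateField ℂ L} {d : ℕ} {V : Submodule ℂ (Derivation ℂ L L →ₗ[L] L)} {f t : ℕ}
    (h : Drop G M d V f t) {g : L ≃ₐ[ℂ] L} (hg : g ∈ G) (hg1 : g ≠ 1) {e : ℕ} (hf : 0 < f)
    {ζ : ℂ} (hζ : IsPrimitiveRoot ζ e) {η : Fin f → Derivation ℂ L L →ₗ[L] L} {a : Fin f → ℕ}
    (hη : ∀ i, η i ∈ V ∧ a i < e ∧ IsImage g (η i) (ζ ^ a i • η i))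
    (hind : IndepOver (m := d) M η) : ∃ l : ℕ, 1 ≤ l ∧ (l + t) * e ≤ l * ∑ i, a i := by
  obtain ⟨l, hl, hcard⟩ := h g hg hg1
  have h1 := hcard η (fun i => (hη i).1) hind
  have hli := Pool.Agent.H34.FA.indep_of_over hind
  -- the exponents which are not zero
  have h2 : ∀ i, a i ≠ 0 → e ≤ l * a i := by
    intro i hi
    obtain ⟨j, hj1, hjl, hj⟩ := hl (η i) (hη i).1 (hli.ne_zero i) _ (hη i).2.2
    rw [← pow_mul] at hj
    have h3 := Nat.le_of_dvd (Nat.mul_pos (Nat.pos_of_ne_zero hi) hj1) (hζ.dvd_of_pow_eq_one _ hj)
    calc e ≤ a i * j := h3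
      _ ≤ a i * l := Nat.mul_le_mul_left _ hjl
      _ = l * a i := mul_comm _ _
  have h3 : (Finset.univ.filter fun i => a i = 0).card ≤
      (Finset.univ.filter fun i => IsImage g (η i) (η i)).card := by
    refine Finset.card_le_card fun i hi => ?_
    rw [Finset.mem_filter] at hi ⊢
    have h4 := (hη i).2.2
    rw [hi.2, pow_zero, one_smul] at h4
    exact ⟨Finset.mem_univ _, h4⟩
  have h4 : (Finset.univ.filter fun i => a i = 0).card +
      (Finset.univ.filter fun i => a i ≠ 0).card = f := by
    have := Finset.card_filter_add_card_filter_not (s := (Finset.univ : Finset (Fin f)))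
      (fun i => a i = 0)
    rw [Finset.card_univ, Fintype.card_fin] at this
    exact this
  have h5 : l + t ≤ (Finset.univ.filter fun i => a i ≠ 0).card := by omega
  have h6 : (Finset.univ.filter fun i => a i ≠ 0).card * e ≤ l * ∑ i, a i := by
    rw [Finset.mul_sum]
    calc (Finset.univ.filter fun i => a i ≠ 0).card * e
        = ∑ i ∈ Finset.univ.filter fun i => a i ≠ 0, e := by
          rw [Finset.sum_const, smul_eq_mul]
      _ ≤ ∑ i ∈ Finset.univ.filter fun i => a i ≠ 0, l * a i :=
          Finset.sum_le_sum fun i hi => h2 i (Finset.mem_filter.1 hi).2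
      _ ≤ ∑ i, l * a i := Finset.sum_le_sum_of_subset (Finset.filter_subset _ _)
  obtain ⟨j, hj1, hjl, -⟩ := hl (η ⟨0, hf⟩) (hη _).1 (hli.ne_zero _) _ (hη _).2.2
  exact ⟨l, hj1.trans hjl, (Nat.mul_le_mul_right e h5).trans h6⟩

/-- **Theorem.** Let `Z → B`, `M ⊂ L`, `Δ_B`, `V`, `G` and `X` be as above.

(1) If `Drop` holds with `t = 1` and `κ (K_B + Δ_B) ≥ 0` (for example, `B` is a point), then
`κ (X) = κ (Z)` and `ν (X) ≤ ν (Z)`; in particular `κ (X) = ν (X)` if this is true for `Z`.

(2) If `Drop` holds with `t = 0`, if the forms in `V` are closed, the fibres of `Z → B` are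
irreducible, `K_B + Δ_B` is of general type (for example, `B` is a point), and the vector fields on the
generic fibre on which all forms in `V` are constant are regular on some projective model of the generic
fibre, then `κ (X) = ν (X) = d + a`, where `(f + 1) - a` is the dimension of the space of these vector
fields. -/
theorem result {L : Type} [Field L] [Algebra ℂ L] [Algebra.EssFiniteType ℂ L]
    -- the base
    (M : IntermediateField ℂ L) [Algebra.EssFiniteType ℂ M] {d f : ℕ}
    (hM : Algebra.trdeg ℂ M = d) (hn : Algebra.trdeg ℂ L = (d + (f + 1) : ℕ))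
    {δB : Place ℂ M → ℝ} (hB : ∀ u, δB u ≤ 1)
    -- the group and the forms
    (G : Subgroup (L ≃ₐ[ℂ] L)) [Finite G]
    (V : Submodule ℂ (Derivation ℂ L L →ₗ[L] L)) (hreg : ∀ θ ∈ V, IsRegForm (d + (f + 1)) θ)
    (hstab : ∀ g ∈ G, ∀ θ ∈ V, ∃ θ' ∈ V, IsImage g θ θ')
    (hind : ∃ θ : Fin (f + 1) → Derivation ℂ L L →ₗ[L] L, (∀ i, θ i ∈ V) ∧
      IndepOver (m := d) M θ)
    (hBX : BaseBound (d + (f + 1)) G M (fun _ => False) (fun _ => 0) δB) :
    (Drop G M d V (f + 1) 1 → PairKod ℂ M d δB 0 →
      (∀ h, KodTr ℂ (fixedField G) (d + (f + 1)) h ↔ KodTr ℂ L (d + (f + 1)) h) ∧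
      (∀ h, NumLe ℂ L (d + (f + 1)) (fun _ => False) h →
        NumLe ℂ (fixedField G) (d + (f + 1)) (fun _ => False) h) ∧
      ∀ a, HasKodairaDim ℂ L (d + (f + 1)) a → HasNumericalDim ℂ L (d + (f + 1)) a →
        HasKodairaDim ℂ (fixedField G) (d + (f + 1)) a ∧
        HasNumericalDim ℂ (fixedField G) (d + (f + 1)) a) ∧
    (Drop G M d V (f + 1) 0 → (∀ x : L, IsAlgebraic M x → x ∈ M) →
      (∀ θ ∈ V, IsClosedForm θ) → PairKod ℂ M d δB d →
      IsRegularOnModel (constFields (fibreForms M V)) →
      ∃ a : ℕ, a + Module.finrank M (constFields (fibreForms M V)) = f + 1 ∧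
        HasKodairaDim ℂ (fixedField G) (d + (f + 1)) (d + a) ∧
        HasNumericalDim ℂ (fixedField G) (d + (f + 1)) (d + a)) := by
  have key : ∀ t, t ≤ 1 → Drop G M d V (f + 1) t → Pool.Agent.H34.FA.Est G M d (f + 1) V t := by
    intro t ht hdrop g hg hg1 ζ hζ η a hη hηi
    obtain ⟨l, hl, h1⟩ := sum_drop hdrop hg hg1 (by omega) hζ hη hηi
    have hord : 0 < orderOf g := by
      have h2 := orderOf_pos (⟨g, hg⟩ : G)
      rwa [Subgroup.orderOf_mk] at h2
    by_contra hcon
    push Not at hcon
    interval_cases t
    · rw [add_zero] at h1 hcon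
      have h3 := Nat.mul_lt_mul_of_pos_left hcon hl
      omega
    · have h3 := Nat.mul_le_mul_left l (Nat.lt_succ_iff.1 hcon)
      have h4 : (l + 1) * orderOf g = l * orderOf g + orderOf g := by ring
      omega
  refine ⟨fun hdrop hB0 => ?_, fun hdrop hMcl hcl hgt hmod => ?_⟩
  · exact Pool.Agent.H34.FA.main_compare M hM hn hB G V hreg hstab hind hBX (key 1 le_rfl hdrop) hB0
  · exact Pool.Agent.H34.FA.main_exact M hM hn hB G V hreg hstab hind hBX (key 0 zero_le_one hdrop)
      hMcl hcl hgt hmod

end Pool.Agent.Results.MP_fa3f7f_ag.CoversOfMaximalAlbaneseDimension
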