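import Pool.Agent.H32.AG.Est

/-!
# Minimal models of quotients by groups which make the irregularity drop

Let `X` be a projective variety of dimension `n` and `Z → X` a Galois cover with the group `G`, with any
ramification, such that `Z` has maximal Albanese dimension (`n` holomorphic 1-forms on a resolution of
`Z` are independent at a general point). Any projective variety `X` has such covers, and `X` itself can
have no holomorphic forms of degree one. For `g` in `G` let `D = q (Z) - q (Z / g)` be the drop of the
irregularity (the number of the 1-forms of `Z` which are moved by `g`), and let `s = n - alb (Z / g)` be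
the dimension of the fibres of the Albanese map of `Z / g`.

**The theorem for a point as base.** Suppose that each `g ≠ 1` in `G` which fixes a prime divisor over
`Z` pointwise (so `G` may contain any elements which act freely) satisfies one of the inequalities

* `2 D + 6 ≤ 3 s`,
* `2 D (⌈log₂ D⌉ + 3) ≤ s ^ 2`,
* `D + 4 ≤ 2 s`, or `6 D ≤ s ^ 2`, and the order of `g` is a power of a prime number.

Then `κ (X) = ν (X)`, if the rational vector fields on `Z` on which all 1-forms of `Z` are constant are
regular on some projective model. If the inequalities hold with the left side plus one, then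
`κ (X) = κ (Z)` and `ν (X) ≤ ν (Z)`; here `κ (Z) = ν (Z)` by a published theorem (varieties of maximal
Albanese dimension), so that `κ (X) = ν (X)`. By published theorems (Lai, Gongyo-Lehmann) `X` is then
birational to a projective variety with terminal singularities and nef canonical divisor. (The
published theorems are not formalized and not used below.)
The bounds do not depend on the order of `g`. They hold since the eigenvalues of `g` on
`H¹ (Z) = V + conj V` are rational: the average of the distance of the fractions `b / d`, `b` prime to
`d`, from the integers is at least `1 / 6` (`1 / 4`, if `d` is a power of a prime number).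

**Example.** Let `A` be an abelian variety of dimension `N` and `G` a finite group of automorphisms of
`A`, such that each `g ≠ 1` in `G` has at most finitely many fixed points. Then `κ (X) = ν (X)` for all
subvarieties `X` of `A / G` (not in the branch locus) of dimension `n ≥ (2 N + 6) / 3`, or
`n ≥ (2 N (⌈log₂ N⌉ + 3)) ^ (1 / 2)`, or, for groups of prime power order, `n ≥ (N + 4) / 2`, or
`n ≥ (6 N) ^ (1 / 2)`: `Z` is a component of the preimage of `X` in `A`, and `V` is the space of the
restrictions to `Z` of the invariant forms of `A`, so that `D ≤ N` and `s = n`.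

**The theorem.** More generally, let `Z → B` be a dominant rational map of projective varieties,
`dim B = d`, `dim Z = d + (f + 1)`, with the function fields `M ⊂ L` (`B` may be a point), `Δ_B` a
divisor on `B` with multiplicities `δB u ≤ 1`, `V` a finite dimensional space of regular 1-forms on
`Z`, `f + 1` of which are independent on the general fibre (for example, `Z` is generically finite over
its image in `B × A`, where `A` is an abelian variety, and `V` is the space of the pull-backs of the
forms of `A`), and `G` a finite group of birational automorphisms of `Z` which preserves `V`; it need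
not preserve the map to `B`. `X` is a projective variety birational to `Z / G`; its function field is
`fixedField G`. For each `g` in `G` the eigenvalues on the sum of `V` and its complex conjugate
(`H¹ (A)` in the example) are rational: primitive roots of unity of the same order have the same
multiplicity.

The pluricanonical forms and the sections of `m K + A` are functions of rational vector fields, with
conditions at all prime divisors over the variety (divisorial places of the function field), so that
they are the sections on every smooth projective model. `IsRegForm`, `IsClosedForm`, `IsImage`,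
`constFields` are defined in `Y173/QA`, `IndepOver` in `Y173/QM`, `fibreForms` in `V11168/Rel`,
`BaseBound` in `V11168/Pair`, `KodTr`, `NumLe` in `W619`, `PairKod` and `IsRegularOnModel` in `Y173`,
`Y174`.
-/

set_option autoImplicit false

open FF IntermediateField Pool.Agent.W619.PQ Pool.Agent.W619.TW Pool.Agent.W619.Y
  Pool.Agent.Y173.QA Pool.Agent.Y173.QM Pool.Agent.Y174 Pool.Agent.V11168.Rel
  Pool.Agent.V11168.Pair

namespace Pool.Agent.Results.MP_fa3f7f_ag.IrregularityDrop

/-- The Kodaira dimension of the projective varieties of dimension `n` over `k` with the function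
field `K` is `a` (and not `-∞`): for some `m ≥ 1` there are `h + 1` regular `m`-fold pluricanonical
forms whose `h` ratios are algebraically independent (`KodTr`) exactly for `h ≤ a`. -/
def HasKodairaDim (k K : Type) [Field k] [Field K] [Algebra k K] (n a : ℕ) : Prop :=
  ∀ h, KodTr k K n h ↔ h ≤ a

/-- The numerical dimension of the canonical bundle of the projective varieties of dimension `n` over
`k` with the function field `K` is `a`: for every divisor `A` there is `C` with
`h⁰ (m K + A) ≤ C m ^ h` for all `m ≥ 1` (`NumLe`), exactly for `h ≥ a`. -/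
def HasNumericalDim (k K : Type) [Field k] [Field K] [Algebra k K] (n a : ℕ) : Prop :=
  ∀ h, NumLe k K n (fun _ => False) h ↔ a ≤ h

variable {L : Type} [Field L] [Algebra ℂ L]

/-- `g` fixes pointwise a prime divisor `w` over the varieties of dimension `n` with the function field
`L` (`g z - z` vanishes along `w` for all functions `z` which are regular along `w`). -/
def FixesDivisor (n : ℕ) (g : L ≃ₐ[ℂ] L) : Prop :=
  ∃ w : Place ℂ L, IsDivisorial w n ∧ ∀ z, w.Reg z → g z - z = 0 ∨ 1 ≤ w.ord (g z - z)

/-- The space of the forms in `V` which `g` multiplies by `c`. -/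
def eigenforms (g : L ≃ₐ[ℂ] L) (V : Submodule ℂ (Derivation ℂ L L →ₗ[L] L)) (c : ℂ) :
    Submodule ℂ (Derivation ℂ L L →ₗ[L] L) where
  carrier := {η | η ∈ V ∧ IsImage g η (c • η)}
  zero_mem' := (Pool.Agent.H32.AG.eigenforms g V c).zero_mem'
  add_mem' := (Pool.Agent.H32.AG.eigenforms g V c).add_mem'
  smul_mem' := (Pool.Agent.H32.AG.eigenforms g V c).smul_mem'

/-- The eigenvalues of `g` on the sum of `V` and its complex conjugate are rational: two primitive
roots of unity `c`, `c'` of the same order have the same multiplicity (`c⁻¹` is the complex conjugate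
of `c`). -/
def RationalEigenvalues (g : L ≃ₐ[ℂ] L) (V : Submodule ℂ (Derivation ℂ L L →ₗ[L] L)) : Prop :=
  ∀ (n : ℕ) (c c' : ℂ), IsPrimitiveRoot c n → IsPrimitiveRoot c' n →
    Module.finrank ℂ (eigenforms g V c) + Module.finrank ℂ (eigenforms g V c⁻¹) =
      Module.finrank ℂ (eigenforms g V c') + Module.finrank ℂ (eigenforms g V c'⁻¹)

open scoped Classical in
/-- Each `g ≠ 1` in `G` which fixes pointwise a prime divisor over `Z`, `dim Z = d + f`, moves many
forms: there are `s > 0` and `D` such that among any `f` elements of `V` which are independent relative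
to `M` at most `f - s` are invariant under `g`, the space of the `g`-invariant forms in `V` has the
codimension `D`, and one of the inequalities holds (with the left side plus `t`). -/
def Drop (G : Subgroup (L ≃ₐ[ℂ] L)) (M : IntermediateField ℂ L)
    (d : ℕ) (V : Submodule ℂ (Derivation ℂ L L →ₗ[L] L)) (f t : ℕ) : Prop :=
  ∀ g ∈ G, g ≠ 1 → FixesDivisor (d + f) g → ∃ s D : ℕ, 0 < s ∧
    (∀ η : Fin f → Derivation ℂ L L →ₗ[L] L, (∀ i, η i ∈ V) → IndepOver (m := d) M η →
      (Finset.univ.filter fun i => IsImage g (η i) (η i)).card + s ≤ f) ∧
    Module.finrank ℂ (eigenforms g V 1) + D = Module.finrank ℂ V ∧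
    (2 * D + 6 + t ≤ 3 * s ∨ 2 * D * (Nat.clog 2 D + 3) + t ≤ s ^ 2 ∨
      (IsPrimePow (orderOf g) ∧ (D + 4 + t ≤ 2 * s ∨ 6 * D + t ≤ s ^ 2)))

/-- **Theorem.** Let `Z → B`, `M ⊂ L`, `Δ_B`, `V`, `G` and `X` be as above.

(1) If `Drop` holds with `t = 1` and `κ (K_B + Δ_B) ≥ 0` (for example, `B` is a point), then
`κ (X) = κ (Z)` and `ν (X) ≤ ν (Z)`; in particular `κ (X) = ν (X)` if this is true for `Z`.

(2) If `Drop` holds with `t = 0`, if the forms in `V` are closed, the fibres of `Z → B` are
irreducible, `K_B + Δ_B` is of general type (for example, `B` is a point), and the vector fields on the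
generic fibre on which all forms in `V` are constant are regular on some projective model of the generic
fibre, then `κ (X) = ν (X) = d + a`, where `(f + 1) - a` is the dimension of the space of these vector
fields. -/
theorem result {L : Type} [Field L] [Algebra ℂ L] [Algebra.EssFiniteType ℂ L]
    -- the base
    (M : IntermediateField ℂ L) [Algebra.EssFiniteType ℂ M] {d f : ℕ}
    (hM : Algebra.trdeg ℂ M = d) (hn : Algebra.trdeg ℂ L = (d + (f + 1) : ℕ))
    {δB : Place ℂ M → ℝ} (hB : ∀ u, δB u ≤ 1)
    -- the group and the forms
    (G : Subgroup (L ≃ₐ[ℂ] L)) [Finite G]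
    (V : Submodule ℂ (Derivation ℂ L L →ₗ[L] L)) [FiniteDimensional ℂ V]
    (hreg : ∀ θ ∈ V, IsRegForm (d + (f + 1)) θ)
    (hstab : ∀ g ∈ G, ∀ θ ∈ V, ∃ θ' ∈ V, IsImage g θ θ')
    (hrat : ∀ g ∈ G, RationalEigenvalues g V)
    (hind : ∃ θ : Fin (f + 1) → Derivation ℂ L L →ₗ[L] L, (∀ i, θ i ∈ V) ∧
      IndepOver (m := d) M θ)
    (hBX : BaseBound (d + (f + 1)) G M (fun _ => False) (fun _ => 0) δB) :
    (Drop G M d V (f + 1) 1 → PairKod ℂ M d δB 0 →
      (∀ h, KodTr ℂ (fixedField G) (d + (f + 1)) h ↔ KodTr ℂ L (d + (f + 1)) h) ∧
      (∀ h, NumLe ℂ L (d + (f + 1)) (fun _ => False) h →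
        NumLe ℂ (fixedField G) (d + (f + 1)) (fun _ => False) h) ∧
      ∀ a, HasKodairaDim ℂ L (d + (f + 1)) a → HasNumericalDim ℂ L (d + (f + 1)) a →
        HasKodairaDim ℂ (fixedField G) (d + (f + 1)) a ∧
        HasNumericalDim ℂ (fixedField G) (d + (f + 1)) a) ∧
    (Drop G M d V (f + 1) 0 → (∀ x : L, IsAlgebraic M x → x ∈ M) →
      (∀ θ ∈ V, IsClosedForm θ) → PairKod ℂ M d δB d →
      IsRegularOnModel (constFields (fibreForms M V)) →
      ∃ a : ℕ, a + Module.finrank M (constFields (fibreForms M V)) = f + 1 ∧
        HasKodairaDim ℂ (fixedField G) (d + (f + 1)) (d + a) ∧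
        HasNumericalDim ℂ (fixedField G) (d + (f + 1)) (d + a)) := by
  have key : ∀ t, t ≤ 1 → Drop G M d V (f + 1) t → Pool.Agent.H32.AG.Est G M d (f + 1) V t :=
    fun t ht hdrop => Pool.Agent.H32.AG.est_of_drop hstab ht hrat hdrop
  refine ⟨fun hdrop hB0 => ?_, fun hdrop hMcl hcl hgt hmod => ?_⟩
  · exact Pool.Agent.H32.AG.main_compare M hM hn hB G V hreg hstab hind hBX (key 1 le_rfl hdrop) hB0
  · exact Pool.Agent.H32.AG.main_exact M hM hn hB G V hreg hstab hind hBX
      (key 0 zero_le_one hdrop) hMcl hcl hgt hmod

end Pool.Agent.Results.MP_fa3f7f_ag.IrregularityDrop
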