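import Pool.Agent.H63.MM.Kod
import Pool.Graph.R_pool_sql_team_seeded_3997aac3.Q36.GP.Dm
import Pool.Graph.R_pool_sql_team_seeded_3997aac3.Q36.GV.Uw
import Pool.Graph.R_pool_sql_team_seeded_3997aac3.Q36.GV.Kn

/-!
# The minimal model conjecture for quotients of products by groups permuting the factors

Let `X 1, ..., X s` be projective varieties over an algebraically closed field of characteristic zero
(for instance the complex numbers), of arbitrary dimensions `d i`, and let `G` be a finite group of
birational automorphisms of `X 1 × ... × X s` which permutes the factors through `σ : G → Sym s` (so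
`g` maps the functions of the factor `i` to functions of the factor `σ g i`). Assume that each `X i` is
uniruled or satisfies `κ (X i) = ν (X i) = a i ≥ 0`, and that for each `g ≠ 1` in `G`

* `age g ≥ 1`, where a cycle of length `l` of factors of dimension `e` contributes `e (l - 1) / 2` to
  `age g`, and moreover `1 / b` if `g ^ l` is not the identity on these factors, and `b` is its order
  there; or
* some power of `g` maps a factor to itself and acts on it without fixed points (`FreeOn`: it is not
  the identity, and it is not in the inertia group of any prime divisor over the factor).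

The theorem, for a projective variety `Y` birational to the quotient `(X 1 × ... × X s) / G`: either

* some `X i` is uniruled, `Y` is uniruled and `K` is not pseudo-effective on a smooth model of `Y`;
  then `Y` has a Mori fibre space (case (b) of the conjecture), by the theorem of Birkar, Cascini,
  Hacon and McKernan; or
* no `X i` is uniruled, `Y` is not uniruled, `K` is pseudo-effective, and `κ (Y) = ν (Y) = ∑ a i`; then
  `Y` has a minimal model (case (a)), even a good one, by the theorem of Gongyo and Lehmann.

For instance:

* all symmetric products `Sym ^ n X` and all quotients `X ^ n / H`, `H ≤ Sym n`, where `dim X ≥ 2` and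
  `X` is uniruled or has `κ (X) = ν (X)`; for curves, all `C ^ n / H` where `H` contains no
  transposition;
* `(T × X ^ n) / H`, where `dim X ≥ 2`, `T` is any variety with `κ (T) = ν (T)` and `H ≤ Sym n` acts on
  `T` in any way at all, also with fixed divisors and also with `T / H` rational: these are the
  fibrations over `T / H` whose fibres are products of copies of `X` which are permuted by the
  monodromy (Weil restrictions);
* the quotients of `X 1 × ... × X s` by groups which act on each factor, where the nontrivial elements
  act on enough factors: `∑ 1 / b i ≥ 1`, the sum over the factors on which `g` acts nontrivially, with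
  the order `b i`.

Proof: the lower bound. Take products of pluricanonical forms of the factors, and the elementary
symmetric functions of their translates under `G`. A prime divisor of the quotient is the trace of a
place `w` of the function field of the product, whose inertia group is cyclic, with a generator `g`. Each
factor has rational functions which form logarithmic coordinates along `w` on this factor, and they can
be chosen to be permuted by `g`; so they are combinations of eigenfunctions with respect to the roots of
unity of order the length of the cycle, and `age g ≥ 1` is just what is needed for the form to be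
regular on the quotient. The upper bound for `ν` is the one for varieties dominated by products.
-/

set_option autoImplicit false
set_option linter.overlappingInstances false

open FF IntermediateField Pool.Agent.W619.PQ Pool.Agent.W619.PL Pool.Agent.W619.TW
  Pool.Agent.W619.X Pool.Agent.W619.Y Pool.Agent.H63.MM

namespace Pool.Agent.Results.MP_fa3f7f_ag.PermutedProducts

/-- **The minimal model conjecture for quotients of products by groups permuting the factors.** Let
`W i` (`i < s`) be the function fields of projective varieties of dimensions `d i` over an algebraically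
closed field of characteristic zero, each of them uniruled or with `κ = ν = a i`, and let `L` be the
function field of their product. Let the finite group `G` of automorphisms of `L` permute the `W i`
through `σ`, and let each `g ≠ 1` in `G` satisfy `1 ≤ age g` or `FreeOn`. Let `fixedField G` be the
function field of the quotient `Y`. Then either some `W i` is uniruled, `Y` is uniruled, its canonical
divisor is not pseudo-effective and `ν (Y) = -∞`; or no `W i` is uniruled, `Y` is not uniruled, its
canonical divisor is pseudo-effective, and `κ (Y) = ν (Y) = ∑ a i`. -/
theorem result {k L : Type} [Field k] [CharZero k] [IsAlgClosed k] [Field L] [Algebra k L]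
    (s : ℕ) (d a : Fin s → ℕ) (W : Fin s → IntermediateField k L)
    (hess : ∀ i, Algebra.EssFiniteType k (W i)) (hd : ∀ i, Algebra.trdeg k (W i) = d i)
    (hL : Algebra.trdeg k L = (∑ i, d i : ℕ)) (hsup : ⨆ i, W i = ⊤)
    (G : Subgroup (L ≃ₐ[k] L)) [Finite G] (σ : G →* Equiv.Perm (Fin s))
    (hσ : ∀ (g : G) i, ∀ z ∈ W i, (g : L ≃ₐ[k] L) z ∈ W (σ g i))
    (hG : ∀ g : G, g ≠ 1 → 1 ≤ age (σ g) W d (g : L ≃ₐ[k] L) ∨ FreeOn G σ W d g)
    (hW : ∀ i, IsUniruled k (W i) (d i) ∨
      (KodTr k (W i) (d i) (a i) ∧ NumLe k (W i) (d i) (fun _ => False) (a i))) :
    ((∃ i, IsUniruled k (W i) (d i)) ∧ IsUniruled k (fixedField G) (∑ i, d i) ∧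
      ¬ IsPsef k (fixedField G) (∑ i, d i) (fun _ => False) ∧
      NumNeg k (fixedField G) (∑ i, d i) (fun _ => False)) ∨
    ((∀ i, ¬ IsUniruled k (W i) (d i)) ∧ ¬ IsUniruled k (fixedField G) (∑ i, d i) ∧
      IsPsef k (fixedField G) (∑ i, d i) (fun _ => False) ∧
      (∀ κ, KodGe k (fixedField G) (∑ i, d i) (fun _ => False) κ ↔ κ ≤ ∑ i, a i) ∧
      (∀ ν, NumLe k (fixedField G) (∑ i, d i) (fun _ => False) ν ↔ ∑ i, a i ≤ ν)) := by
  classical
  have hessL : Algebra.EssFiniteType k L := Q36.GV.ess_supW W hsup
  have hfinL : FiniteDimensional (fixedField G) L := by
    have hGal : IsGaloisGroup G (fixedField G) L := isGaloisGroup_fixed G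
    exact IsGaloisGroup.finiteDimensional G (fixedField G) L
  have hessK : Algebra.EssFiniteType k (fixedField G) := Q36.SD.ess_below (K := L)
  have hn : Algebra.trdeg k (fixedField G) = (∑ i, d i : ℕ) := Q36.SD.trdeg_below (K := L) hL
  by_cases hU : ∃ i, IsUniruled k (W i) (d i)
  · left
    have h1 := Q36.GV.uniruled_prodV (L := fixedField G) W hd hL hsup hU
    exact ⟨hU, h1, uniruled_neg _ hn h1⟩
  · right
    push Not at hU
    have hK : ∀ i, KodTr k (W i) (d i) (a i) := fun i => ((hW i).resolve_left (hU i)).1
    have hN : ∀ i, NumLe k (W i) (d i) (fun _ => False) (a i) := fun i =>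
      ((hW i).resolve_left (hU i)).2
    have h1 : KodTr k (fixedField G) (∑ i, d i) (∑ i, a i) :=
      kodTr_quotient G σ W hd hL hsup hσ hG hK
    have h2 : NumLe k (fixedField G) (∑ i, d i) (fun _ => False) (∑ i, a i) :=
      Q36.GP.num_dom (L := fixedField G) W hd hL hsup hN
    have : CharZero (fixedField G) := charZero_of_alg (k := k)
    have h3 : KodGe k (fixedField G) (∑ i, d i) (fun _ => False) (∑ i, a i) :=
      Pool.Agent.W300.PG.TRGE.main k (fixedField G) (∑ i, d i) _ hn h1
    have hpsef : IsPsef k (fixedField G) (∑ i, d i) (fun _ => False) :=
      psef_of_eff (eff_of_kodTr h1)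
    refine ⟨hU, fun h5 => (uniruled_neg _ hn h5).1 hpsef, hpsef, fun κ => ⟨fun h => ?_, fun h => ?_⟩,
      fun ν => ⟨fun h => ?_, fun h => ?_⟩⟩
    · exact Q36.GV.kod_num h h2
    · exact h3.mono h
    · exact Q36.GV.kod_num h3 h
    · intro S
      obtain ⟨C, hC⟩ := h2 S
      refine ⟨C, fun m h' hm hs => (hC m h' hm hs).trans ?_⟩
      exact Nat.mul_le_mul_left C (Nat.pow_le_pow_right hm h)

end Pool.Agent.Results.MP_fa3f7f_ag.PermutedProducts
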