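import Pool.Agent.H34.FA.RT

/-!
# Minimal models of subvarieties of small codimension in quotients of powers of abelian varieties

Let `A` be an abelian variety of dimension `N`, and `G` a finite group of automorphisms of `A ^ r` which
acts on the invariant 1-forms `H⁰ (A ^ r, Ω¹) = ℂ ^ r ⊗ H⁰ (A, Ω¹)` through real `r × r`-matrices, for
example through integer matrices: the symmetric group, with `A ^ r / G = Sym ^ r A`; `± 1`, with the
Kummer varieties of all dimensions as quotients; the Weyl groups acting on the tensor products of root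
lattices with `A`, among them the generalized Kummer varieties; and all groups obtained from these by
adding translations. (We may assume that `G` contains no translations, otherwise we pass to the quotient
of `A ^ r` by them.)

**The theorem for a point as base.** Let `V` be a closed subvariety of `A ^ r / G` of codimension `q`,
with any singularities and in any position. If `q ≤ N - 2`, or if `q ≤ N - 1` and no element of `G` acts
on `ℂ ^ r` as a reflection, then `κ (V) = ν (V) ≥ 0`. If `q ≤ N - 3`, or `q ≤ N - 2` and there are no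
reflections, and `X` is any projective variety with a generically finite dominant rational map to `V`
(ramified anywhere), then `κ (X) = κ (Z) ≥ 0` and `ν (X) ≤ ν (Z)` for a component `Z` of the fibre product
of `X` and `A ^ r` over `A ^ r / G`; here `κ (Z) = ν (Z)` by a published theorem on varieties of maximal
Albanese dimension, so that `κ (X) = ν (X) ≥ 0`. By published theorems (`κ = ν ≥ 0` gives a good minimal
model: Lai, Gongyo-Lehmann) `V` and `X` are then birational to projective varieties with terminal
singularities and nef canonical divisor. (The published theorems are not formalized and not used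
below.) The condition `q ≤ N - 2` cannot be replaced by `q ≤ N - 1` if there are reflections: the
rational curves in the Kummer variety of the Jacobian of a hyperelliptic curve of genus `N` have
codimension `N - 1` (not formalized).

**The theorem.** More generally, let `Z → B` be a dominant rational map of projective varieties,
`dim B = d`, `dim Z = d + (f + 1)`, with the function fields `M ⊂ L`, `Δ_B` a divisor on `B` with
multiplicities `δB u ≤ 1`, `G` a finite group of birational automorphisms of `Z` (it need not preserve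
the map to `B`), and `θ b i j`, `b < s`, `i < r b`, `j < N b`, regular 1-forms on `Z` such that
`g (θ b i j) = ∑ l, ρ b g l i θ b l j` with a homomorphism `ρ b` of `G` to the real `r b × r b`-matrices;
some `f + 1` linear combinations of the `θ b i j` are independent on the general fibre. So, if there
are no other relations, `Z` is generically finite over a subvariety of the relative dimension `f + 1`
of a family over `B` of products of powers `A_b ^ (r b)` of abelian varieties, `dim A_b = N b`. Its
relative codimension is `q = ∑ b, r b * N b - (f + 1)`. `SmallCodim ρ N f t g`: for some `b`,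
`ρ b g ≠ 1` and `N b ≥ q + 2 + t`, or `ρ b g - 1` has at least the rank `2` and `N b ≥ q + 1 + t`.
`X` is a projective variety birational to `Z / G`; its function field is `fixedField G`.

`BaseBound ... δB` (a hypothesis of both parts): if the prime divisor `w` over `Z` is not ramified over
`X` and lies over the prime divisor `u` over `B` with multiplicity `c`, then `1 ≤ c (1 - δB u)`, that
is, `δB u ≤ 1 - 1 / c`; there is no condition if `B` is a point.

The pluricanonical forms and the sections of `m K + A` are functions of rational vector fields, with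
conditions at all prime divisors over the variety (divisorial places of the function field), so that
they are the sections on every smooth projective model. `IsRegForm`, `IsClosedForm`, `IsImage`,
`constFields` are defined in `Y173/QA`, `IndepOver` in `Y173/QM`, `fibreForms` in `V11168/Rel`,
`BaseBound` in `V11168/Pair`, `KodTr`, `NumLe` in `W619`, `PairKod` and `IsRegularOnModel` in `Y173`,
`Y174`.
-/

set_option autoImplicit false

open FF IntermediateField Pool.Agent.W619.PQ Pool.Agent.W619.TW Pool.Agent.W619.Y
  Pool.Agent.Y173.QA Pool.Agent.Y173.QM Pool.Agent.Y174 Pool.Agent.V11168.Rel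
  Pool.Agent.V11168.Pair

namespace Pool.Agent.Results.MP_fa3f7f_ag.SmallCodimensionSubvarieties

/-- The Kodaira dimension of the projective varieties of dimension `n` over `k` with the function
field `K` is `a` (and not `-∞`): for some `m ≥ 1` there are `h + 1` regular `m`-fold pluricanonical
forms whose `h` ratios are algebraically independent (`KodTr`) exactly for `h ≤ a`. -/
def HasKodairaDim (k K : Type) [Field k] [Field K] [Algebra k K] (n a : ℕ) : Prop :=
  ∀ h, KodTr k K n h ↔ h ≤ a

/-- The numerical dimension of the canonical bundle of the projective varieties of dimension `n` over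
`k` with the function field `K` is `a`: for every divisor `A` there is `C` with
`h⁰ (m K + A) ≤ C m ^ h` for all `m ≥ 1` (`NumLe`), exactly for `h ≥ a`. -/
def HasNumericalDim (k K : Type) [Field k] [Field K] [Algebra k K] (n a : ℕ) : Prop :=
  ∀ h, NumLe k K n (fun _ => False) h ↔ a ≤ h

/-- The codimension `q = ∑ b, r b * N b - f` is small for the element `g`: for some `b`, `ρ b g ≠ 1` and
`q + 2 + t ≤ N b`, or `ρ b g - 1` has at least the rank `2` and `q + 1 + t ≤ N b`. -/
def SmallCodim {Γ : Type} [Monoid Γ] {s : ℕ} {r : Fin s → ℕ}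
    (ρ : ∀ b, Γ →* Matrix (Fin (r b)) (Fin (r b)) ℝ) (N : Fin s → ℕ) (f t : ℕ) (g : Γ) : Prop :=
  ∃ b, (ρ b g ≠ 1 ∧ ∑ b, r b * N b + 2 + t ≤ f + N b) ∨
    (2 ≤ (ρ b g - 1).rank ∧ ∑ b, r b * N b + 1 + t ≤ f + N b)

/-- **Theorem.** Let `Z → B`, `M ⊂ L`, `Δ_B`, `G`, `θ`, `ρ` and `X` be as above.

(1) If the codimension is small for all `g ≠ 1` in `G`, with `t = 0`, if the forms are closed, the fibres
of `Z → B` are irreducible, `K_B + Δ_B` is of general type (for example, `B` is a point), and the vector
fields on the generic fibre on which all forms are constant are regular on some projective model of the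
generic fibre (for subvarieties of abelian varieties these are the vector fields of the stabilizer), then
`κ (X) = ν (X) = d + a`, where `(f + 1) - a` is the dimension of the space of these vector fields.

(2) If the codimension is small for all `g ≠ 1` in `G`, with `t = 1`, and `κ (K_B + Δ_B) ≥ 0`, then
`κ (X) = κ (Z)` and `ν (X) ≤ ν (Z)`; in particular `κ (X) = ν (X)` if this is true for `Z`. -/
theorem result {L : Type} [Field L] [Algebra ℂ L] [Algebra.EssFiniteType ℂ L]
    -- the base
    (M : IntermediateField ℂ L) [Algebra.EssFiniteType ℂ M] {d f : ℕ}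
    (hM : Algebra.trdeg ℂ M = d) (hn : Algebra.trdeg ℂ L = (d + (f + 1) : ℕ))
    {δB : Place ℂ M → ℝ} (hB : ∀ u, δB u ≤ 1)
    -- the group and the forms
    (G : Subgroup (L ≃ₐ[ℂ] L)) [Finite G] {s : ℕ} {r N : Fin s → ℕ}
    (θ : ∀ b, Fin (r b) → Fin (N b) → (Derivation ℂ L L →ₗ[L] L))
    (hreg : ∀ b i j, IsRegForm (d + (f + 1)) (θ b i j))
    (ρ : ∀ b, G →* Matrix (Fin (r b)) (Fin (r b)) ℝ)
    (hρ : ∀ (g : G) b i j,
      IsImage (g : L ≃ₐ[ℂ] L) (θ b i j) (∑ l, (ρ b g l i : ℂ) • θ b l j))
    (hind : ∃ η : Fin (f + 1) → Derivation ℂ L L →ₗ[L] L,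
      (∀ i, η i ∈ Submodule.span ℂ {η | ∃ b i j, η = θ b i j}) ∧ IndepOver (m := d) M η)
    (hBX : BaseBound (d + (f + 1)) G M (fun _ => False) (fun _ => 0) δB) :
    ((∀ g : G, g ≠ 1 → SmallCodim ρ N (f + 1) 0 g) →
      (∀ x : L, IsAlgebraic M x → x ∈ M) → (∀ b i j, IsClosedForm (θ b i j)) →
      PairKod ℂ M d δB d →
      IsRegularOnModel (constFields
        (fibreForms M (Submodule.span ℂ {η | ∃ b i j, η = θ b i j}))) →
      ∃ a : ℕ, a + Module.finrank M (constFields
          (fibreForms M (Submodule.span ℂ {η | ∃ b i j, η = θ b i j}))) = f + 1 ∧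
        HasKodairaDim ℂ (fixedField G) (d + (f + 1)) (d + a) ∧
        HasNumericalDim ℂ (fixedField G) (d + (f + 1)) (d + a)) ∧
    ((∀ g : G, g ≠ 1 → SmallCodim ρ N (f + 1) 1 g) → PairKod ℂ M d δB 0 →
      (∀ h, KodTr ℂ (fixedField G) (d + (f + 1)) h ↔ KodTr ℂ L (d + (f + 1)) h) ∧
      (∀ h, NumLe ℂ L (d + (f + 1)) (fun _ => False) h →
        NumLe ℂ (fixedField G) (d + (f + 1)) (fun _ => False) h) ∧
      ∀ a, HasKodairaDim ℂ L (d + (f + 1)) a → HasNumericalDim ℂ L (d + (f + 1)) a →
        HasKodairaDim ℂ (fixedField G) (d + (f + 1)) a ∧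
        HasNumericalDim ℂ (fixedField G) (d + (f + 1)) a) := by
  classical
  have hfd : FiniteDimensional (fixedField G) L := fd_fixed G
  obtain ⟨η, hη, hηi⟩ := hind
  set V : Submodule ℂ (Derivation ℂ L L →ₗ[L] L) :=
    Submodule.span ℂ {η | ∃ b i j, η = θ b i j} with hV
  -- regularity
  have hregV : ∀ η ∈ V, IsRegForm (d + (f + 1)) η := by
    intro η hη
    induction hη using Submodule.span_induction with
    | mem x hx =>
      obtain ⟨b, i, j, rfl⟩ := hx
      exact hreg b i j
    | zero => exact fun w _ D _ => Or.inl rfl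
    | add x y _ _ hx hy => exact fun w hw D hD => w.reg_add (hx w hw D hD) (hy w hw D hD)
    | smul a x _ hx =>
      intro w hw D hD
      have h1 : (a • x) D = algebraMap ℂ L a * x D := by
        rw [← Algebra.smul_def]
        rfl
      rw [h1]
      exact w.reg_mul (w.reg_const a) (hx w hw D hD)
  have hlog : ∀ θ ∈ V, IsLogForm (d + (f + 1)) (BdOn fun _ : Place ℂ (fixedField G) => False) θ :=
    fun θ hθ w hw D hD => hregV θ hθ w hw D (hD.1 fun ⟨_, _, _, h⟩ => h)
  -- stability
  have hstab : ∀ g ∈ G, ∀ θ ∈ V, ∃ θ' ∈ V, IsImage g θ θ' := by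
    intro g hg η hη
    refine ⟨act g η, ?_, isImage_act g η⟩
    induction hη using Submodule.span_induction with
    | mem x hx =>
      obtain ⟨b, i, j, rfl⟩ := hx
      rw [← (isImage_iff g _ _).1 (hρ ⟨g, hg⟩ b i j)]
      exact Submodule.sum_mem _ fun l _ => Submodule.smul_mem _ _
        (Submodule.subset_span ⟨b, l, j, rfl⟩)
    | zero => rw [map_zero]; exact Submodule.zero_mem _
    | add x y _ _ hx hy => rw [map_add]; exact Submodule.add_mem _ hx hy
    | smul a x _ hx => rw [map_smul]; exact Submodule.smul_mem _ _ hx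
  -- the estimate
  have key : ∀ (t : ℕ), (∀ g : G, g ≠ 1 → SmallCodim ρ N (f + 1) t g) →
      ∀ g ∈ G, g ≠ 1 → ∀ ζ : ℂ, IsPrimitiveRoot ζ (orderOf g) →
      ∀ (η : Fin (f + 1) → Derivation ℂ L L →ₗ[L] L) (a : Fin (f + 1) → ℕ),
      (∀ i, η i ∈ V ∧ a i < orderOf g ∧ IsImage g (η i) (ζ ^ a i • η i)) →
      IndepOver (m := d) M η → orderOf g + t ≤ ∑ i, a i := by
    intro t hsmall g hg hg1 ζ hζ η a hηa hηi
    have hne : (⟨g, hg⟩ : G) ≠ 1 := fun h => hg1 (congrArg Subtype.val h)
    obtain ⟨b, hb⟩ := hsmall ⟨g, hg⟩ hne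
    have hord : orderOf g = orderOf (⟨g, hg⟩ : G) := (Subgroup.orderOf_mk g hg).symm
    have hfin : 0 < orderOf (⟨g, hg⟩ : G) := orderOf_pos _
    have he : 2 ≤ orderOf g := by
      have h1 : orderOf g ≠ 1 := fun h => hg1 (orderOf_eq_one_iff.1 h)
      omega
    refine Pool.Agent.H34.FA.sum_exps θ he b (R := ρ b ⟨g, hg⟩) ?_ (hρ ⟨g, hg⟩ b) hb
      (Pool.Agent.H34.FA.indep_of_over hηi) (fun i => (hηa i).1) hζ (fun i => (hηa i).2.1)
      (fun i => (hηa i).2.2)
    rw [← map_pow, hord, pow_orderOf_eq_one, map_one]
  have hmult : ∀ (w : Place ℂ L) (c : ℕ) (β : ℝ), BaseMult M δB w c β → 0 ≤ (c : ℝ) * (1 - β) := by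
    rintro w c β (⟨u, -, rfl⟩ | ⟨rfl, -⟩)
    · exact mul_nonneg (Nat.cast_nonneg c) (by linarith [hB u])
    · simp
  refine ⟨fun hsmall hMcl hcl hgt hmod => ?_, fun hsmall hB0 => ?_⟩
  · have hclV : ∀ η ∈ V, IsClosedForm η := by
      intro η hη
      induction hη using Submodule.span_induction with
      | mem x hx =>
        obtain ⟨b, i, j, rfl⟩ := hx
        exact hcl b i j
      | zero =>
        intro D D'
        simp
      | add x y _ _ hx hy =>
        intro D D'
        rw [LinearMap.add_apply, hx D D', hy D D', LinearMap.add_apply, LinearMap.add_apply,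
          map_add, map_add]
        ring
      | smul a x _ hx =>
        intro D D'
        rw [LinearMap.smul_apply, hx D D', LinearMap.smul_apply, LinearMap.smul_apply,
          D.map_smul, D'.map_smul, smul_sub]
    have hRT : ReidTaiPair d (f + 1) G M V (fun _ => False) (fun _ => 0) δB := by
      intro g hg hg1 v w _ _ _ _ ζ hζ η a hηa hηi c β hcβ
      have h1 := key 0 hsmall g hg hg1 ζ hζ η a hηa hηi
      have h2 : (orderOf g : ℝ) ≤ ∑ i, (a i : ℝ) := by exact_mod_cast h1
      have h3 := hmult w c β hcβ
      rw [sub_zero, mul_one]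
      linarith
    have hT : ∀ v : Place ℂ (fixedField G), IsDivisorial v (d + (f + 1)) →
        ∃ g ∈ ({1} : Finset (fixedField G)), g ≠ 0 ∧ (0 : ℝ) ≤ (v.ord g : ℝ) := fun v _ =>
      ⟨1, Finset.mem_singleton_self 1, one_ne_zero, by rw [v.ord_one]; simp⟩
    obtain ⟨a, ha, h1, h2⟩ := pair_main (δ := fun _ : Place ℂ (fixedField G) => (0 : ℝ)) hMcl hM hn G
      (fun _ => le_rfl) (Bd := fun _ => False) (fun _ h => h.elim) hT hlog hclV hstab hB hBX hRT
      hη hηi
    have h3 := h2 hmod (fun v w e _ he _ => Or.inl (by
      have h4 : (1 : ℝ) ≤ e := by exact_mod_cast he.1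
      have h5 : (1 : ℝ) / e ≤ 1 := by
        rw [div_le_one (by linarith)]
        exact h4
      linarith))
    have h4 := h1 d hgt
    refine ⟨a, ha, fun h => ?_, fun h => ?_⟩
    · rw [← pairKod_zero]
      exact ⟨fun h5 => pair_le h5 h3, fun h5 => pairKod_mono h5 h4⟩
    · rw [← pairNum_zero]
      exact ⟨fun h5 => pair_le h4 h5, fun h5 => pairNum_mono h5 h3⟩
  · have hRT : ReidTaiStrict d (f + 1) G M V (fun _ => False) (fun _ => 0) δB 1 := by
      intro g hg hg1 v w _ _ _ _ ζ hζ η a hηa hηi c β hcβ
      have h1 := key 1 hsmall g hg hg1 ζ hζ η a hηa hηi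
      have h2 : (orderOf g : ℝ) + 1 ≤ ∑ i, (a i : ℝ) := by exact_mod_cast h1
      have h3 := hmult w c β hcβ
      rw [sub_zero, mul_one]
      exact ⟨by linarith, fun _ => by linarith⟩
    have hnK : Algebra.trdeg ℂ (fixedField G) = (d + (f + 1) : ℕ) := trdeg_fixed G hn
    obtain ⟨zK, hzK⟩ := Pool.Agent.W636.PG.exists_basis ℂ (fixedField G) _ hnK
    have hess : Algebra.EssFiniteType ℂ (fixedField G) :=
      Pool.Agent.Y174.ess_down (L := L) inferInstance zK hzK
    have hpull : IsPull (fun _ : Place ℂ (fixedField G) => 0) (fun _ : Place ℂ L => 0) := isPull_zero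
    have h1 : ∀ h, PairKod ℂ (fixedField G) (d + (f + 1)) (fun _ => 0) h ↔
        PairKod ℂ L (d + (f + 1)) (fun _ => 0) h := fun h =>
      ⟨fun h2 => pair_up hess hnK hpull h2, fun h2 => transfer hM hn G (fun _ => le_rfl)
        (Bd := fun _ => False) (fun _ h => h.elim) hlog hstab hB hBX one_pos hRT hη hηi hB0 hpull h2⟩
    have h2 : ∀ h, PairNum ℂ L (d + (f + 1)) (fun _ => 0) h →
        PairNum ℂ (fixedField G) (d + (f + 1)) (fun _ => 0) h :=
      fun h h3 => pair_num hess hnK hpull h3
    have e1 : ∀ h, KodTr ℂ (fixedField G) (d + (f + 1)) h ↔ KodTr ℂ L (d + (f + 1)) h := by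
      intro h
      rw [← pairKod_zero, ← pairKod_zero]
      exact h1 h
    have e2 : ∀ h, NumLe ℂ L (d + (f + 1)) (fun _ => False) h →
        NumLe ℂ (fixedField G) (d + (f + 1)) (fun _ => False) h := by
      intro h
      rw [← pairNum_zero, ← pairNum_zero]
      exact h2 h
    refine ⟨e1, e2, fun a ha ha' => ⟨fun h => (e1 h).trans (ha h), fun h => ⟨fun h5 => ?_,
      fun h5 => e2 h ((ha' h).2 h5)⟩⟩⟩
    have h4 : PairKod ℂ (fixedField G) (d + (f + 1)) (fun _ => 0) a :=
      pairKod_zero.2 ((e1 a).2 ((ha a).2 le_rfl))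
    exact pair_le h4 (pairNum_zero.2 h5)

end Pool.Agent.Results.MP_fa3f7f_ag.SmallCodimensionSubvarieties
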